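import Pool.Agent.H.MP_4cad9a_co_h81.Numbers

set_option autoImplicit false

open Pool.Agent.H.MP_4cad9a_co_h81

/-- There are `p ≥ 1` and a finite `p`-chromatic graph `G` no subgraph of which admits a chromatic
`p`-scheme. -/
theorem Pool.Agent.Results.MP_4cad9a_co.NoChromaticScheme.result :
    ∃ (p : ℕ) (V : Type) (_ : Fintype V) (G : SimpleGraph V), 1 ≤ p ∧
      G.chromaticNumber = (p : ℕ∞) ∧
      ∀ (G' : G.Subgraph) (Q : G'.coe.Coloring (Fin p)) (S : Scheme G'.coe p),
        ¬ IsChromatic Q S := by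
  obtain ⟨n, m, s, t, T, K, r, ν, a₀, c, θ, hn, hnum⟩ := exists_num
  obtain ⟨H, htri, hP⟩ := exists_graph hnum
  have hcol : Hᶜ.chromaticNumber ≠ ⊤ :=
    SimpleGraph.chromaticNumber_ne_top_iff_exists.2 ⟨_, Hᶜ.colorable_of_fintype⟩
  obtain ⟨p, hp⟩ := ENat.ne_top_iff_exists.1 hcol
  refine ⟨p, Fin n, inferInstance, Hᶜ, ?_, hp.symm, fun G' Q S =>
    no_scheme H t (by rw [Fintype.card_fin, hn]) htri hP hp.symm G' Q S⟩
  -- `p ≥ 1`
  rcases Nat.eq_zero_or_pos p with h0 | h0
  · exfalso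
    have hnpos : 0 < n := by
      rcases Nat.eq_zero_or_pos n with hn0 | hn0
      · exfalso
        have ht : t = 0 := by omega
        subst ht
        obtain ⟨i, -⟩ := hP Fin.elim0 Fin.elim0 (fun x => by
          rcases x with x | x <;> exact Fin.elim0 x)
        exact Fin.elim0 i
      · exact hn0
    have hc := SimpleGraph.colorable_of_chromaticNumber_ne_top hcol
    rw [← hp, h0] at hc
    obtain ⟨C⟩ := hc
    exact Fin.elim0 (C ⟨0, hnpos⟩)
  · exact h0
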